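import Mathlib

/-!
# Invariant subsolutions on principal congruence surfaces
-/

set_option autoImplicit false

open Set MeasureTheory UpperHalfPlane CongruenceSubgroup
open scoped Laplacian ContDiff MatrixGroups

namespace Pool.Agent.FKS

/-- `g` is a continuous, nonnegative, `Γ(N)`-invariant and locally square-integrable (on every
translate of the standard fundamental domain) function on the upper half plane which is smooth
where it is positive and satisfies `-y² (g_xx + g_yy) ≤ lam * g` there. -/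
structure Subsolution (N : ℕ) (lam : ℝ) (g : ℂ → ℝ) : Prop where
  cont : ContinuousOn g {w | 0 < w.im}
  nonneg : ∀ w : ℂ, 0 < w.im → 0 ≤ g w
  inv : ∀ γ ∈ Gamma N, ∀ z : ℍ, g ((γ • z : ℍ) : ℂ) = g (z : ℂ)
  smooth : ContDiffOn ℝ ∞ g {w | 0 < w.im ∧ 0 < g w}
  pde : ∀ w : ℂ, 0 < w.im → 0 < g w → -(w.im ^ 2 * Δ g w) ≤ lam * g w
  mass : ∀ γ : SL(2, ℤ), ∫⁻ z in (fun z : ℍ => γ • z) '' ModularGroup.fd, ‖(g z : ℂ)‖ₑ ^ 2 < ⊤

end Pool.Agent.FKS
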